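import Pool.Agent.Lib.MP_0f714a_pr.Main

open scoped NNReal
open Pool.Agent.Lib.MP_0f714a_pr

universe u

namespace Pool.Agent.Lib.MP_0f714a_pr.Old.NotInI0

/-- For all `lam > 0` and `τ > 0`, the truncated exponential `t ↦ exp (-lam * min τ t)` has a
factor in the semigroup of standard p-functions that is not infinitely divisible; so it is not in
the class `I₀`.  With `lam = τ = 1` this refutes Q1. -/
theorem result (lam τ : ℝ≥0) (hlam : 0 < lam) (hτ : 0 < τ) :
    ∃ q : ℝ≥0 → ℝ, IsFactor.{u} q (truncExp lam τ) ∧ ¬ IsInfDiv.{u} q :=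
  main lam τ hlam hτ

end Pool.Agent.Lib.MP_0f714a_pr.Old.NotInI0
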